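import Mathlib

/-!
# A conservative real Henon map with an invariant open annulus free of periodic points
-/

namespace Pool.Agent.Results.MP_8a808a_an.PuncturedPlane

/-- the map `(x, y) ↦ (p(x) - b y, x)` -/
noncomputable def henon (p : Polynomial ℝ) (b : ℝ) (z : ℝ × ℝ) : ℝ × ℝ :=
  (p.eval z.1 - b * z.2, z.1)

/-- annular rotation domains of a map of the plane: invariant open sets homeomorphic to
`S¹ × (0, 1)` without periodic points -/
def IsAnnular (f : ℝ × ℝ → ℝ × ℝ) (A : Set (ℝ × ℝ)) : Prop :=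
  IsOpen A ∧ Nonempty (A ≃ₜ (Metric.sphere (0 : ℂ) 1 × Set.Ioo (0 : ℝ) 1)) ∧ f '' A = A ∧
    ∀ z ∈ A, ∀ n : ℕ, 1 ≤ n → f^[n] z ≠ z

/-- `(0, ∞)` and `(0, 1)` are homeomorphic -/
noncomputable def rayInterval : Set.Ioi (0 : ℝ) ≃ₜ Set.Ioo (0 : ℝ) 1 where
  toFun x := ⟨x.1 / (1 + x.1), by
    have hx : (0 : ℝ) < x.1 := x.2
    exact ⟨by positivity, by rw [div_lt_one (by positivity)]; linarith⟩⟩
  invFun y := ⟨y.1 / (1 - y.1), by
    have h1 : (0 : ℝ) < y.1 := y.2.1
    have h2 : y.1 < 1 := y.2.2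
    have h3 : 0 < 1 - y.1 := by linarith
    exact div_pos h1 h3⟩
  left_inv x := by
    have hx : (0 : ℝ) < x.1 := x.2
    apply Subtype.ext
    simp only
    have h1 : (1 : ℝ) + x.1 ≠ 0 := by positivity
    have h2 : 1 - x.1 / (1 + x.1) = 1 / (1 + x.1) := by field_simp; ring
    rw [h2]
    field_simp
  right_inv y := by
    have h2 : y.1 < 1 := y.2.2
    apply Subtype.ext
    simp only
    have h1 : (1 : ℝ) - y.1 ≠ 0 := by linarith
    have h3 : 1 + y.1 / (1 - y.1) = 1 / (1 - y.1) := by field_simp; ring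
    rw [h3]
    field_simp
  continuous_toFun := by
    refine Continuous.subtype_mk (Continuous.div continuous_subtype_val (by fun_prop) ?_) _
    intro x
    have hx : (0 : ℝ) < x.1 := x.2
    positivity
  continuous_invFun := by
    refine Continuous.subtype_mk (Continuous.div continuous_subtype_val (by fun_prop) ?_) _
    intro y
    have h2 : y.1 < 1 := y.2.2
    have h3 : 0 < 1 - y.1 := by linarith
    exact h3.ne'

theorem homeo : Nonempty (({0}ᶜ : Set (ℝ × ℝ)) ≃ₜ (Metric.sphere (0 : ℂ) 1 × Set.Ioo (0 : ℝ) 1)) := by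
  let e1 : ({0}ᶜ : Set (ℝ × ℝ)) ≃ₜ ({0}ᶜ : Set ℂ) :=
    Complex.equivRealProdCLM.symm.toHomeomorph.subtype (fun x => by
      simp [Complex.ext_iff, Prod.ext_iff])
  exact ⟨e1.trans ((homeomorphUnitSphereProd ℂ).trans
    ((Homeomorph.refl _).prodCongr rayInterval))⟩

/-- the map `(x, y) ↦ (x² + y, x)` -/
theorem henon_eq (z : ℝ × ℝ) : henon (Polynomial.X ^ 2) (-1) z = (z.1 ^ 2 + z.2, z.1) := by
  simp [henon]

theorem sum_eq (z : ℝ × ℝ) (n : ℕ) :
    ((henon (Polynomial.X ^ 2) (-1))^[n] z).1 + ((henon (Polynomial.X ^ 2) (-1))^[n] z).2 =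
      z.1 + z.2 + ∑ k ∈ Finset.range n, ((henon (Polynomial.X ^ 2) (-1))^[k] z).1 ^ 2 := by
  induction n with
  | zero => simp
  | succ n ih =>
    rw [Finset.sum_range_succ, Function.iterate_succ_apply', henon_eq]
    simp only
    linarith

theorem no_periodic (z : ℝ × ℝ) (n : ℕ) (hn : 1 ≤ n)
    (h : (henon (Polynomial.X ^ 2) (-1))^[n] z = z) : z = 0 := by
  have h2 : (henon (Polynomial.X ^ 2) (-1))^[n + n] z = z := by
    rw [Function.iterate_add_apply, h, h]
  have h3 := sum_eq z (n + n)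
  rw [h2] at h3
  have h4 : ∑ k ∈ Finset.range (n + n), ((henon (Polynomial.X ^ 2) (-1))^[k] z).1 ^ 2 = 0 := by
    linarith
  rw [Finset.sum_eq_zero_iff_of_nonneg (fun _ _ => sq_nonneg _)] at h4
  have h5 := h4 0 (by simp; omega)
  have h6 := h4 1 (by simp; omega)
  simp only [Function.iterate_zero, id_eq, Function.iterate_one, henon_eq] at h5 h6
  have h7 : z.1 = 0 := by nlinarith
  rw [h7] at h6
  have h8 : z.2 = 0 := by nlinarith
  exact Prod.ext h7 h8

theorem image_eq : henon (Polynomial.X ^ 2) (-1) '' ({0}ᶜ : Set (ℝ × ℝ)) = {0}ᶜ := by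
  ext w
  constructor
  · rintro ⟨z, hz, rfl⟩ hw
    apply hz
    rw [henon_eq] at hw
    have h1 : z.1 ^ 2 + z.2 = 0 := congrArg Prod.fst hw
    have h2 : z.1 = 0 := congrArg Prod.snd hw
    rw [h2] at h1
    exact Prod.ext h2 (by simpa using h1)
  · intro hw
    refine ⟨(w.2, w.1 - w.2 ^ 2), ?_, ?_⟩
    · intro h
      apply hw
      have h1 : w.2 = 0 := congrArg Prod.fst h
      have h2 : w.1 - w.2 ^ 2 = 0 := congrArg Prod.snd h
      rw [h1] at h2
      exact Prod.ext (by simpa using h2) h1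
    · rw [henon_eq]
      exact Prod.ext (by simp) rfl

/-- The conservative Henon map `(x, y) ↦ (x² + y, x)` has the punctured plane as annular rotation
domain. -/
theorem result : IsAnnular (henon (Polynomial.X ^ 2) (-1)) {0}ᶜ ∧
    ∃ p : Polynomial ℝ, 2 ≤ p.natDegree ∧ ∃ b : ℝ, |b| = 1 ∧ ∃ A, IsAnnular (henon p b) A := by
  have h : IsAnnular (henon (Polynomial.X ^ 2) (-1)) {0}ᶜ :=
    ⟨isOpen_compl_singleton, homeo, image_eq, fun z hz n hn h => hz (no_periodic z n hn h)⟩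
  exact ⟨h, Polynomial.X ^ 2, by simp, -1, by simp, _, h⟩

end Pool.Agent.Results.MP_8a808a_an.PuncturedPlane
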